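import Pool.Agent.Q14.Symb

set_option autoImplicit false

/-!
The join of the boundaries of two tetrahedra (eight vertices, dimension five): for large `m` the
symbolic defects satisfy `a_1 > a_2 < a_3`, since `a_1` and `a_3` grow like `m ^ 6` and `a_2` like
`m ^ 5`.
-/

namespace Pool.Agent.Results.MP_2a0133_al.ThinJoin

open MvPolynomial Q14.Mono

/-- A simplicial complex on the vertex set `Fin n`, given by its faces. -/
structure Complex (n : ℕ) where
  faces : Finset (Finset (Fin n))
  down : ∀ F ∈ faces, ∀ G, G ⊆ F → G ∈ faces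
  vertex : ∀ v, {v} ∈ faces

/-- The dimension. -/
def Complex.dim {n : ℕ} (Δ : Complex n) : ℕ := Δ.faces.sup Finset.card - 1

/-- The faces of dimension `i`. -/
def Complex.facesOfDim {n : ℕ} (Δ : Complex n) (i : ℕ) : Set (Finset (Fin n)) :=
  {F | F ∈ Δ.faces ∧ F.card = i + 1}

/-- The symbolic defect: the minimal number of generators of the module `I^(m)/I^m`. -/
noncomputable def sdefect {n : ℕ} {K : Type*} [Field K] (I : Ideal (MvPolynomial (Fin n) K))
    (m : ℕ) : ℕ :=
  (Submodule.map (Submodule.mkQ (I ^ m)) (symbPow I m)).spanFinrank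

/-- The coefficient `a_i = sdefect(F(Δ^[i]), m)`. -/
noncomputable def coeffSeq (K : Type*) [Field K] {n : ℕ} (Δ : Complex n) (m i : ℕ) : ℕ :=
  sdefect (sqf K (Δ.facesOfDim i)) m

/-- The sequence `a 1, …, a p` is unimodal. -/
def Unimodal (a : ℕ → ℕ) (p : ℕ) : Prop :=
  ∃ k, 1 ≤ k ∧ k ≤ p ∧ (∀ i, 1 ≤ i → i < k → a i ≤ a (i + 1)) ∧
    ∀ i, k ≤ i → i < p → a (i + 1) ≤ a i

/-- The sequence of the symbolic defect polynomials is asymptotically quasi-unimodal. -/
def AsymptoticallyQuasiUnimodal (K : Type*) [Field K] {n : ℕ} (Δ : Complex n) : Prop :=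
  ∃ k, 1 ≤ k ∧ ∃ N, ∀ l, N ≤ l → k ∣ l → Unimodal (coeffSeq K Δ l) (Δ.dim - 1)

/-! ### Counting generators -/

section Count

variable {n : ℕ} {K : Type*} [Field K]

lemma coeff_mul_of_minimal {J : Ideal (MvPolynomial (Fin n) K)} (hJ : IsMon J)
    {b : Fin n →₀ ℕ} (hb : ∀ v, b v ≠ 0 → monomial (b - Finsupp.single v 1) (1 : K) ∉ J)
    (c f : MvPolynomial (Fin n) K) (hf : f ∈ J) :
    coeff b (c * f) = coeff 0 c * coeff b f := by
  classical
  rw [coeff_mul]
  rw [Finset.sum_eq_single (0, b)]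
  · rintro ⟨u, w⟩ huw hne
    rw [Finset.HasAntidiagonal.mem_antidiagonal] at huw
    have hu : u ≠ 0 := by
      rintro rfl
      apply hne
      have huw' : w = b := by simpa using huw
      rw [huw']
    obtain ⟨v, hv⟩ := Finsupp.ne_iff.mp hu
    have hv' : u v ≠ 0 := by simpa using hv
    have hw : coeff w f = 0 := by
      by_contra hcon
      have h1 := hJ f hf w (mem_support_iff.mpr hcon)
      have hbv : b v ≠ 0 := by
        have := DFunLike.congr_fun huw v
        simp only [Finsupp.add_apply] at this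
        omega
      apply hb v hbv
      refine monomial_mem_of_le ?_ h1
      intro x
      have := DFunLike.congr_fun huw x
      simp only [Finsupp.add_apply] at this
      rw [Finsupp.tsub_apply, Finsupp.single_apply]
      split_ifs with hx
      · subst hx; omega
      · omega
    rw [hw, mul_zero]
  · intro h
    exact absurd (Finset.HasAntidiagonal.mem_antidiagonal.mpr (zero_add b)) h

/-- Minimal generators give a lower bound. -/
theorem card_le_spanFinrank {J L : Ideal (MvPolynomial (Fin n) K)} (hJ : IsMon J) (hL : IsMon L)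
    (hLJ : L ≤ J) (B : Finset (Fin n →₀ ℕ)) (h1 : ∀ b ∈ B, monomial b (1 : K) ∈ J)
    (h2 : ∀ b ∈ B, ∀ v, b v ≠ 0 → monomial (b - Finsupp.single v 1) (1 : K) ∉ J)
    (h3 : ∀ b ∈ B, monomial b (1 : K) ∉ L) :
    B.card ≤ (Submodule.map (Submodule.mkQ L) J).spanFinrank := by
  classical
  have hfg : (Submodule.map (Submodule.mkQ L) J).FG := by
    apply Submodule.FG.map
    exact IsNoetherian.noetherian J
  obtain ⟨s, hs, hspan⟩ := hfg.exists_span_finset_card_eq_spanFinrank
  rw [← hs]
  let Φ : MvPolynomial (Fin n) K →ₗ[K] (B → K) := LinearMap.pi fun b => lcoeff K b.1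
  have hΦ : ∀ f (b : B), Φ f b = coeff b.1 f := fun f b => rfl
  have hΦL : ∀ f ∈ L, Φ f = 0 := by
    intro f hf
    ext b
    rw [hΦ]
    by_contra hcon
    exact h3 b.1 b.2 (hL f hf b.1 (mem_support_iff.mpr hcon))
  have hsur : ∀ x : MvPolynomial (Fin n) K ⧸ L, ∃ f, Submodule.mkQ L f = x :=
    Submodule.mkQ_surjective L
  choose lift hlift using hsur
  have key : ∀ f g, Submodule.mkQ L f = Submodule.mkQ L g → Φ f = Φ g := by
    intro f g h
    have h4 : f - g ∈ L := by
      rw [← Submodule.Quotient.eq]; exact h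
    have h5 := hΦL _ h4
    rw [map_sub, sub_eq_zero] at h5
    exact h5
  set W : Submodule K (B → K) := Submodule.span K ((fun x => Φ (lift x)) '' (s : Set _)) with hW
  have hmain : ∀ x ∈ Submodule.span (MvPolynomial (Fin n) K) (s : Set _),
      ∀ f, Submodule.mkQ L f = x → Φ f ∈ W := by
    intro x hx
    refine Submodule.span_induction (p := fun x _ => ∀ f, Submodule.mkQ L f = x → Φ f ∈ W)
      ?_ ?_ ?_ ?_ hx
    · intro x hxs f hf
      rw [key f (lift x) (by rw [hf, hlift])]
      exact Submodule.subset_span ⟨x, hxs, rfl⟩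
    · intro f hf
      rw [key f 0 (by rw [hf, map_zero]), map_zero]
      exact W.zero_mem
    · intro x y _ _ hx hy f hf
      rw [key f (lift x + lift y) (by rw [hf, map_add, hlift, hlift]), map_add]
      exact W.add_mem (hx _ (hlift x)) (hy _ (hlift y))
    · intro c x hxs hx f hf
      rw [key f (c * lift x) (by rw [hf, ← smul_eq_mul, map_smul, hlift])]
      have hmem : lift x ∈ J := by
        rw [hspan] at hxs
        obtain ⟨g, hg, hgx⟩ := hxs
        have : lift x - g ∈ L := by
          rw [← Submodule.Quotient.eq]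
          exact (hlift x).trans hgx.symm
        have h6 := J.add_mem (hLJ this) hg
        rwa [sub_add_cancel] at h6
      have h7 : Φ (c * lift x) = coeff 0 c • Φ (lift x) := by
        ext b
        rw [hΦ, coeff_mul_of_minimal hJ (h2 b.1 b.2) c _ hmem]
        rfl
      rw [h7]
      exact W.smul_mem _ (hx _ (hlift x))
  have htop : W = ⊤ := by
    rw [eq_top_iff]
    intro y _
    have hy : y = Φ (∑ b : B, monomial b.1 (y b)) := by
      ext b
      rw [hΦ, coeff_sum]
      simp only [coeff_monomial]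
      rw [Finset.sum_eq_single b]
      · rw [if_pos rfl]
      · intro c _ hcb
        rw [if_neg (fun h => hcb (Subtype.ext h))]
      · intro h; exact absurd (Finset.mem_univ _) h
    rw [hy]
    refine hmain (Submodule.mkQ L (∑ b : B, monomial b.1 (y b))) ?_ _ rfl
    rw [hspan]
    refine ⟨_, ?_, rfl⟩
    refine Submodule.sum_mem _ fun b _ => ?_
    rw [show monomial b.1 (y b) = C (y b) * monomial b.1 1 by rw [C_mul_monomial, mul_one]]
    exact J.mul_mem_left _ (h1 b.1 b.2)
  calc B.card = Module.finrank K (B → K) := by simp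
    _ = Module.finrank K (⊤ : Submodule K (B → K)) := (finrank_top K (B → K)).symm
    _ = Module.finrank K W := by rw [htop]
    _ = Module.finrank K (Submodule.span K
          (((s.image fun x => Φ (lift x)) : Finset (B → K)) : Set (B → K))) := by
        rw [hW, Finset.coe_image]
    _ ≤ (s.image fun x => Φ (lift x)).card := finrank_span_finset_le_card _
    _ ≤ s.card := Finset.card_image_le

/-- A generating set gives an upper bound. -/
theorem spanFinrank_le_card {J L : Ideal (MvPolynomial (Fin n) K)} (hJ : IsMon J)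
    (G : Finset (Fin n →₀ ℕ))
    (h : ∀ u, monomial u (1 : K) ∈ J → ∃ g ∈ G, monomial g (1 : K) ∈ J ∧ g ≤ u) :
    (Submodule.map (Submodule.mkQ L) J).spanFinrank ≤ G.card := by
  classical
  have hJ' : J = Ideal.span ((fun u => monomial u (1 : K)) ''
      ({g | g ∈ G ∧ monomial g (1 : K) ∈ J} : Set (Fin n →₀ ℕ))) := by
    apply le_antisymm
    · intro f hf
      refine mem_of_forall fun u hu => ?_
      obtain ⟨g, hg, hgJ, hgu⟩ := h u (hJ f hf u hu)
      exact monomial_mem_of_le hgu (Ideal.subset_span ⟨g, ⟨hg, hgJ⟩, rfl⟩)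
    · rw [Ideal.span_le]
      rintro _ ⟨g, ⟨-, hg⟩, rfl⟩
      exact hg
  have h2 : Submodule.map (Submodule.mkQ L) J = Submodule.span (MvPolynomial (Fin n) K)
      ((Submodule.mkQ L) '' ((fun u => monomial u (1 : K)) ''
      ({g | g ∈ G ∧ monomial g (1 : K) ∈ J} : Set (Fin n →₀ ℕ)))) := by
    conv_lhs => rw [hJ']
    unfold Ideal.span
    rw [Submodule.map_span]
  rw [h2, ← Set.image_comp]
  have hfin : ({g | g ∈ G ∧ monomial g (1 : K) ∈ J} : Set (Fin n →₀ ℕ)).Finite :=
    G.finite_toSet.subset fun g hg => hg.1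
  refine (Submodule.spanFinrank_span_le_ncard_of_finite (hfin.image _)).trans ?_
  refine (Set.ncard_image_le hfin).trans ?_
  rw [← Set.ncard_coe_finset]
  exact Set.ncard_le_ncard (fun g hg => hg.1) G.finite_toSet

end Count

/-! ### The complex -/

/-- The vertices `0, 1, 2, 3`. -/
def setA : Finset (Fin 8) := {0, 1, 2, 3}

/-- The vertices `4, 5, 6, 7`. -/
def setB : Finset (Fin 8) := {4, 5, 6, 7}

/-- The join of the boundaries of the tetrahedra `setA` and `setB`. -/
def theComplex : Complex 8 where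
  faces := Finset.univ.filter fun F => ¬ setA ⊆ F ∧ ¬ setB ⊆ F
  down := by
    intro F hF G hG
    rw [Finset.mem_filter] at hF ⊢
    exact ⟨Finset.mem_univ _, fun h => hF.2.1 (h.trans hG), fun h => hF.2.2 (h.trans hG)⟩
  vertex := by decide

lemma dim_theComplex : theComplex.dim = 5 := by
  unfold Complex.dim
  have h : theComplex.faces.sup Finset.card = 6 := by
    apply le_antisymm
    · rw [Finset.sup_le_iff]
      intro F hF
      have hF' := (Finset.mem_filter.mp hF).2
      by_contra hcon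
      push Not at hcon
      have h1 : Fᶜ.card ≤ 1 := by
        rw [Finset.card_compl]; simp; omega
      obtain ⟨a, ha, haF⟩ := Finset.not_subset.mp hF'.1
      obtain ⟨b, hb, hbF⟩ := Finset.not_subset.mp hF'.2
      have := Finset.card_le_one.mp h1 a (Finset.mem_compl.mpr haF) b (Finset.mem_compl.mpr hbF)
      subst this
      clear haF hbF hF' hcon h1 hF
      revert ha hb
      revert a
      decide
    · have : ({0, 1, 2, 4, 5, 6} : Finset (Fin 8)) ∈ theComplex.faces := by decide
      exact Finset.le_sup (f := Finset.card) this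
  rw [h]

lemma mem_facesOfDim {i : ℕ} {F : Finset (Fin 8)} :
    F ∈ theComplex.facesOfDim i ↔ (¬ setA ⊆ F ∧ ¬ setB ⊆ F) ∧ F.card = i + 1 := by
  unfold Complex.facesOfDim theComplex
  simp

/-- The monomials of the symbolic powers. -/
def Mem (i m : ℕ) (u : Fin 8 →₀ ℕ) : Prop :=
  ∀ D : Finset (Fin 8), (∀ F ∈ theComplex.facesOfDim i, ¬ F ⊆ D) → m + ∑ v ∈ D, u v ≤ ∑ v, u v

variable {K : Type*} [Field K]

theorem lower (K : Type*) [Field K] (i m : ℕ) (B : Finset (Fin 8 →₀ ℕ)) (h1 : ∀ b ∈ B, Mem i m b)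
    (h2 : ∀ b ∈ B, ∀ v, b v ≠ 0 → ¬ Mem i m (b - Finsupp.single v 1))
    (h3 : ∀ b ∈ B, ∑ v, b v < m * (i + 1)) : B.card ≤ coeffSeq K theComplex m i := by
  unfold coeffSeq sdefect
  refine card_le_spanFinrank (isMon_symbPow _ m) ((isMon_sqf _).pow m) (pow_le_symbPow _ m) B
    ?_ ?_ ?_
  · intro b hb
    rw [monomial_mem_symbPow']
    exact h1 b hb
  · intro b hb v hv
    rw [monomial_mem_symbPow']
    exact h2 b hb v hv
  · intro b hb hcon
    have := le_degree_of_mem_sqf_pow _ (i + 1) m (fun F hF => (mem_facesOfDim.mp hF).2) hcon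
    exact absurd (h3 b hb) (not_lt.mpr this)

theorem upper (K : Type*) [Field K] (i m : ℕ) (G : Finset (Fin 8 →₀ ℕ))
    (h : ∀ u, Mem i m u → ∃ g ∈ G, Mem i m g ∧ g ≤ u) : coeffSeq K theComplex m i ≤ G.card := by
  unfold coeffSeq sdefect
  refine spanFinrank_le_card (isMon_symbPow _ m) G ?_
  intro u hu
  rw [monomial_mem_symbPow'] at hu
  obtain ⟨g, hg, hgM, hgu⟩ := h u hu
  exact ⟨g, hg, (monomial_mem_symbPow' _ m g).mpr hgM, hgu⟩

/-! ### The coefficients `a_1` and `a_2` -/

lemma not_setA_subset {F : Finset (Fin 8)} (h : F.card ≤ 3) : ¬ setA ⊆ F := fun hs => by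
  have := Finset.card_le_card hs
  have h2 : setA.card = 4 := by decide
  omega

lemma not_setB_subset {F : Finset (Fin 8)} (h : F.card ≤ 3) : ¬ setB ⊆ F := fun hs => by
  have := Finset.card_le_card hs
  have h2 : setB.card = 4 := by decide
  omega

lemma mem_small {i m : ℕ} (hi : i ≤ 2) {u : Fin 8 →₀ ℕ} :
    Mem i m u ↔ ∀ D : Finset (Fin 8), D.card ≤ i → m + ∑ v ∈ D, u v ≤ ∑ v, u v := by
  constructor
  · intro h D hD
    refine h D fun F hF hFD => ?_
    have h1 := (mem_facesOfDim.mp hF).2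
    have h2 := Finset.card_le_card hFD
    omega
  · intro h D hD
    refine h D ?_
    by_contra hcon
    push Not at hcon
    obtain ⟨F, hFD, hFc⟩ := Finset.exists_subset_card_eq (show i + 1 ≤ D.card by omega)
    exact hD F (mem_facesOfDim.mpr ⟨⟨not_setA_subset (by omega), not_setB_subset (by omega)⟩, hFc⟩)
      hFD

lemma sum_sub_single (D : Finset (Fin 8)) (u : Fin 8 →₀ ℕ) (v : Fin 8) (hv : u v ≠ 0) :
    ∑ w ∈ D, (u - Finsupp.single v 1 : Fin 8 →₀ ℕ) w = ∑ w ∈ D, u w - if v ∈ D then 1 else 0 := by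
  split_ifs with h
  · have h1 := Finset.add_sum_erase D (fun w => u w) h
    have h2 := Finset.add_sum_erase D (fun w => (u - Finsupp.single v 1 : Fin 8 →₀ ℕ) w) h
    have h3 : ∑ w ∈ D.erase v, (u - Finsupp.single v 1 : Fin 8 →₀ ℕ) w = ∑ w ∈ D.erase v, u w := by
      refine Finset.sum_congr rfl fun w hw => ?_
      rw [Finsupp.tsub_apply, Finsupp.single_apply, if_neg (fun hh => (Finset.ne_of_mem_erase hw) hh.symm)]
      omega
    rw [Finsupp.tsub_apply, Finsupp.single_eq_same] at h2
    omega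
  · rw [Nat.sub_zero]
    refine Finset.sum_congr rfl fun w hw => ?_
    rw [Finsupp.tsub_apply, Finsupp.single_apply, if_neg (fun hh => h (by rw [hh]; exact hw))]
    omega

/-- Below every monomial of a symbolic power there is a minimal one. -/
lemma exists_minimal (i m : ℕ) (u : Fin 8 →₀ ℕ) (hu : Mem i m u) :
    ∃ g, g ≤ u ∧ Mem i m g ∧ ∀ v, g v ≠ 0 → ¬ Mem i m (g - Finsupp.single v 1) := by
  induction hN : ∑ v, u v using Nat.strong_induction_on generalizing u with
  | _ N ih =>
    by_cases h : ∃ v, u v ≠ 0 ∧ Mem i m (u - Finsupp.single v 1)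
    · obtain ⟨v, hv, hM⟩ := h
      have h1 := sum_sub_single Finset.univ u v hv
      rw [if_pos (Finset.mem_univ v)] at h1
      have h2 : u v ≤ ∑ w, u w := Finset.single_le_sum (fun _ _ => Nat.zero_le _) (Finset.mem_univ v)
      obtain ⟨g, hg, hgM, hgm⟩ := ih (∑ w, (u - Finsupp.single v 1 : Fin 8 →₀ ℕ) w) (by omega) _ hM rfl
      exact ⟨g, hg.trans tsub_le_self, hgM, hgm⟩
    · push Not at h
      exact ⟨u, le_rfl, hu, h⟩

/-- The shape of the minimal generators of the symbolic powers for `i = 2`. -/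
lemma minimal_two {m : ℕ} {g : Fin 8 →₀ ℕ} (hg : Mem 2 m g)
    (hmin : ∀ v, g v ≠ 0 → ¬ Mem 2 m (g - Finsupp.single v 1)) :
    ∃ T : Finset (Fin 8), T.card = 3 ∧ ∀ i ∈ T, g i + ∑ j ∈ Tᶜ, g j = m := by
  obtain ⟨i0, -, hi0⟩ := Finset.exists_max_image Finset.univ g Finset.univ_nonempty
  have hg' := (mem_small le_rfl).mp hg
  rcases Nat.eq_zero_or_pos (g i0) with h0 | hpos
  · have hz : ∀ v, g v = 0 := fun v => by
      have := hi0 v (Finset.mem_univ v)
      omega
    have h1 := hg' ∅ (by simp)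
    simp only [hz, Finset.sum_const_zero, add_zero] at h1
    refine ⟨{0, 1, 2}, by decide, fun i _ => ?_⟩
    simp only [hz, Finset.sum_const_zero, add_zero]
    omega
  · have h1 := hmin i0 (by omega)
    rw [mem_small le_rfl] at h1
    push Not at h1
    obtain ⟨D, hD, hlt⟩ := h1
    rw [sum_sub_single _ _ _ (by omega), sum_sub_single _ _ _ (by omega),
      if_pos (Finset.mem_univ i0)] at hlt
    have h2 := hg' D hD
    have h2' : g i0 ≤ ∑ w, g w :=
      Finset.single_le_sum (fun _ _ => Nat.zero_le _) (Finset.mem_univ i0)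
    have h3 : i0 ∉ D := by
      intro hin
      rw [if_pos hin] at hlt
      have : g i0 ≤ ∑ w ∈ D, g w := Finset.single_le_sum (f := fun w => g w) (fun _ _ => Nat.zero_le _) hin
      omega
    rw [if_neg h3] at hlt
    obtain ⟨D', hDD', hD'u, hD'c⟩ := Finset.exists_subsuperset_card_eq
      (s := D) (t := Finset.univ.erase i0) (n := 2)
      (fun x hx => Finset.mem_erase.mpr ⟨fun h => h3 (h ▸ hx), Finset.mem_univ _⟩) hD
      (by rw [Finset.card_erase_of_mem (Finset.mem_univ _)]; simp)
    have h4 : i0 ∉ D' := fun h => (Finset.mem_erase.mp (hD'u h)).1 rfl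
    have h5 : ∑ w ∈ D, g w ≤ ∑ w ∈ D', g w := Finset.sum_le_sum_of_subset hDD'
    have h6 := hg' D' hD'c.le
    have h7 : m + ∑ w ∈ D', g w = ∑ w, g w := by omega
    have h8 : ∀ j ∈ D', g j = g i0 := by
      intro j hj
      have h9 := hg' (insert i0 (D'.erase j)) (by
        refine (Finset.card_insert_le _ _).trans ?_
        rw [Finset.card_erase_of_mem hj]; omega)
      rw [Finset.sum_insert (fun h => h4 (Finset.mem_of_mem_erase h))] at h9
      have h10 := Finset.add_sum_erase D' (fun w => g w) hj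
      have h11 := hi0 j (Finset.mem_univ j)
      omega
    refine ⟨insert i0 D', by rw [Finset.card_insert_of_notMem h4, hD'c], fun i hi => ?_⟩
    have h12 : g i = g i0 := by
      rcases Finset.mem_insert.mp hi with rfl | hi
      · rfl
      · exact h8 i hi
    have h13 := Finset.sum_add_sum_compl (insert i0 D') (fun w => g w)
    rw [Finset.sum_insert h4] at h13
    rw [h12]
    omega

/-- Candidates for minimal generators. -/
noncomputable def cand (m : ℕ) (x : (Fin 5 → Fin 8) × (Fin 5 → Fin (m + 1))) : Fin 8 →₀ ℕ :=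
  Finsupp.equivFunOnFinite.symm fun i =>
    if ∃ j, x.1 j = i then ∑ j, if x.1 j = i then (x.2 j : ℕ) else 0 else m - ∑ j, (x.2 j : ℕ)

theorem upper_two (K : Type*) [Field K] (m : ℕ) :
    coeffSeq K theComplex m 2 ≤ 8 ^ 5 * (m + 1) ^ 5 := by
  classical
  refine (upper K 2 m (Finset.univ.image (cand m)) ?_).trans ?_
  · intro u hu
    obtain ⟨g, hgu, hgM, hgm⟩ := exists_minimal 2 m u hu
    refine ⟨g, ?_, hgM, hgu⟩
    obtain ⟨T, hT, hTg⟩ := minimal_two hgM hgm
    have hTc : (Tᶜ).card = 5 := by rw [Finset.card_compl, hT]; rfl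
    let e : Fin 5 ↪o Fin 8 := (Tᶜ).orderEmbOfFin hTc
    have hrange : ∀ i, (∃ j, e j = i) ↔ i ∈ Tᶜ := by
      intro i
      have := Finset.range_orderEmbOfFin Tᶜ hTc
      rw [← Finset.mem_coe, ← this]
      rfl
    have hsum : ∑ j, g (e j) = ∑ v ∈ Tᶜ, g v := by
      calc ∑ j, g (e j) = ∑ v ∈ Finset.univ.map e.toEmbedding, g v := by
            rw [Finset.sum_map]; rfl
        _ = _ := by rw [Finset.map_orderEmbOfFin_univ]
    obtain ⟨t, ht⟩ : T.Nonempty := by rw [← Finset.card_pos]; omega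
    have hle : ∀ j, g (e j) < m + 1 := by
      intro j
      have h1 : g (e j) ≤ ∑ v ∈ Tᶜ, g v :=
        Finset.single_le_sum (f := fun v => g v) (fun _ _ => Nat.zero_le _) ((hrange _).mp ⟨j, rfl⟩)
      have h2 := hTg t ht
      omega
    rw [Finset.mem_image]
    refine ⟨(e, fun j => ⟨g (e j), hle j⟩), Finset.mem_univ _, ?_⟩
    ext i
    unfold cand
    simp only [Finsupp.equivFunOnFinite_symm_apply_apply]
    split_ifs with h
    · obtain ⟨j, rfl⟩ := h
      rw [Finset.sum_eq_single j]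
      · rw [if_pos rfl]
      · intro k _ hk
        rw [if_neg (fun h => hk (e.injective h))]
      · intro h; exact absurd (Finset.mem_univ _) h
    · rw [hrange, Finset.mem_compl, not_not] at h
      have := hTg i h
      rw [hsum]
      omega
  · refine Finset.card_image_le.trans ?_
    rw [Finset.card_univ, Fintype.card_prod, Fintype.card_fun, Fintype.card_fun]
    simp

lemma key_one {m t : ℕ} {u : Fin 8 →₀ ℕ} (hsum : ∑ v, u v = m + t) (h6 : u 6 = t) (h7 : u 7 = t)
    (hle : ∀ v, u v ≤ t) (ht : t < m) :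
    Mem 1 m u ∧ (∀ v, u v ≠ 0 → ¬ Mem 1 m (u - Finsupp.single v 1)) ∧ ∑ v, u v < m * (1 + 1) := by
  refine ⟨?_, ?_, by omega⟩
  · rw [mem_small (by omega)]
    intro D hD
    have h1 := Finset.sum_le_card_nsmul D (fun v => u v) t (fun v _ => hle v)
    have h2 : D.card • t ≤ t := by
      rw [smul_eq_mul]
      calc D.card * t ≤ 1 * t := Nat.mul_le_mul_right _ hD
        _ = t := one_mul t
    omega
  · intro v hv hM
    rw [mem_small (by omega)] at hM
    have hw : ∃ w, w ≠ v ∧ u w = t := by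
      by_cases hv6 : v = 6
      · exact ⟨7, by rw [hv6]; decide, h7⟩
      · exact ⟨6, fun h => hv6 h.symm, h6⟩
    obtain ⟨w, hwv, hw⟩ := hw
    have h1 := hM {w} (by simp)
    rw [sum_sub_single _ _ _ hv, sum_sub_single _ _ _ hv, if_pos (Finset.mem_univ v),
      if_neg (fun h => hwv (Finset.mem_singleton.mp h).symm), Finset.sum_singleton, hw, hsum] at h1
    omega

/-- Many minimal generators for `i = 1`. -/
noncomputable def vecOne (m s : ℕ) (c : Fin 6 → Fin s) : Fin 8 →₀ ℕ :=
  Finsupp.equivFunOnFinite.symm ![c 0 + 1, c 1 + 1, c 2 + 1, c 3 + 1, c 4 + 1, c 5 + 1,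
    m - (c 0 + c 1 + c 2 + c 3 + c 4 + c 5 + 6), m - (c 0 + c 1 + c 2 + c 3 + c 4 + c 5 + 6)]

lemma vecOne_injective (m s : ℕ) : Function.Injective (vecOne m s) := by
  intro c d h
  have h' := fun i => DFunLike.congr_fun h i
  unfold vecOne at h'
  simp only [Finsupp.equivFunOnFinite_symm_apply_apply] at h'
  funext i
  apply Fin.ext
  fin_cases i
  · simpa using h' 0
  · simpa using h' 1
  · simpa using h' 2
  · simpa using h' 3
  · simpa using h' 4
  · simpa using h' 5

theorem lower_one (K : Type*) [Field K] (m s : ℕ) (h : 7 * s ≤ m) :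
    s ^ 6 ≤ coeffSeq K theComplex m 1 := by
  classical
  have hcard : (Finset.univ.image (vecOne m s)).card = s ^ 6 := by
    rw [Finset.card_image_of_injective _ (vecOne_injective m s)]
    simp
  rw [← hcard]
  have hkey : ∀ b ∈ Finset.univ.image (vecOne m s), Mem 1 m b ∧
      (∀ v, b v ≠ 0 → ¬ Mem 1 m (b - Finsupp.single v 1)) ∧ ∑ v, b v < m * (1 + 1) := by
    intro b hb
    obtain ⟨c, -, rfl⟩ := Finset.mem_image.mp hb
    have hc := fun i => (c i).isLt
    have c0 := hc 0
    have c1 := hc 1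
    have c2 := hc 2
    have c3 := hc 3
    have c4 := hc 4
    have c5 := hc 5
    refine key_one (t := m - (c 0 + c 1 + c 2 + c 3 + c 4 + c 5 + 6)) ?_ rfl rfl ?_ ?_
    · rw [Fin.sum_univ_eight]
      change (c 0 + 1 : ℕ) + (c 1 + 1) + (c 2 + 1) + (c 3 + 1) + (c 4 + 1) + (c 5 + 1) +
        (m - (c 0 + c 1 + c 2 + c 3 + c 4 + c 5 + 6)) +
        (m - (c 0 + c 1 + c 2 + c 3 + c 4 + c 5 + 6)) = _
      omega
    · intro v
      fin_cases v
      · change (c 0 + 1 : ℕ) ≤ _; omega
      · change (c 1 + 1 : ℕ) ≤ _; omega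
      · change (c 2 + 1 : ℕ) ≤ _; omega
      · change (c 3 + 1 : ℕ) ≤ _; omega
      · change (c 4 + 1 : ℕ) ≤ _; omega
      · change (c 5 + 1 : ℕ) ≤ _; omega
      · exact le_rfl
      · exact le_rfl
    · omega
  exact lower K 1 m _ (fun b hb => (hkey b hb).1) (fun b hb => (hkey b hb).2.1)
    (fun b hb => (hkey b hb).2.2)

/-! ### The coefficient `a_3` -/

lemma eq_setA {F : Finset (Fin 8)} (h : F.card = 4) (hs : setA ⊆ F) : F = setA :=
  (Finset.eq_of_subset_of_card_le hs (by rw [h]; decide)).symm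

lemma eq_setB {F : Finset (Fin 8)} (h : F.card = 4) (hs : setB ⊆ F) : F = setB :=
  (Finset.eq_of_subset_of_card_le hs (by rw [h]; decide)).symm

lemma faceless {D : Finset (Fin 8)} (hD : ∀ F ∈ theComplex.facesOfDim 3, ¬ F ⊆ D)
    (h4 : 4 ≤ D.card) : D = setA ∨ D = setB := by
  obtain ⟨F, hFD, hF⟩ := Finset.exists_subset_card_eq h4
  by_cases hA : setA ⊆ F
  · left
    have := eq_setA hF hA
    subst this
    by_contra hne
    obtain ⟨x, hxD, hxA⟩ := Finset.exists_of_ssubset (Finset.ssubset_iff_subset_ne.mpr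
      ⟨hFD, fun h => hne h.symm⟩)
    have hsub : ({x, 1, 2, 3} : Finset (Fin 8)) ⊆ D := by
      intro y hy
      simp only [Finset.mem_insert, Finset.mem_singleton] at hy
      rcases hy with rfl | rfl | rfl | rfl
      · exact hxD
      · exact hFD (by decide)
      · exact hFD (by decide)
      · exact hFD (by decide)
    refine hD {x, 1, 2, 3} (mem_facesOfDim.mpr ?_) hsub
    clear hsub hxD hne hFD hF hA hD h4
    revert hxA
    revert x
    decide
  · by_cases hB : setB ⊆ F
    · right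
      have := eq_setB hF hB
      subst this
      by_contra hne
      obtain ⟨x, hxD, hxA⟩ := Finset.exists_of_ssubset (Finset.ssubset_iff_subset_ne.mpr
        ⟨hFD, fun h => hne h.symm⟩)
      have hsub : ({x, 5, 6, 7} : Finset (Fin 8)) ⊆ D := by
        intro y hy
        simp only [Finset.mem_insert, Finset.mem_singleton] at hy
        rcases hy with rfl | rfl | rfl | rfl
        · exact hxD
        · exact hFD (by decide)
        · exact hFD (by decide)
        · exact hFD (by decide)
      refine hD {x, 5, 6, 7} (mem_facesOfDim.mpr ?_) hsub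
      clear hsub hxD hne hFD hF hA hB hD h4
      revert hxA
      revert x
      decide
    · exact absurd hFD (hD F (mem_facesOfDim.mpr ⟨⟨hA, hB⟩, hF⟩))

lemma faceless_setA : ∀ F ∈ theComplex.facesOfDim 3, ¬ F ⊆ setA := by
  intro F hF hs
  obtain ⟨⟨h1, -⟩, h2⟩ := mem_facesOfDim.mp hF
  have h3 : F = setA := Finset.eq_of_subset_of_card_le hs (by rw [h2]; decide)
  exact h1 (by rw [h3])

lemma faceless_setB : ∀ F ∈ theComplex.facesOfDim 3, ¬ F ⊆ setB := by
  intro F hF hs
  obtain ⟨⟨-, h1⟩, h2⟩ := mem_facesOfDim.mp hF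
  have h3 : F = setB := Finset.eq_of_subset_of_card_le hs (by rw [h2]; decide)
  exact h1 (by rw [h3])

lemma key_three {m : ℕ} {u : Fin 8 →₀ ℕ} (hA : ∑ v ∈ setA, u v = m) (hB : ∑ v ∈ setB, u v = m)
    (hle : ∀ v, 3 * u v ≤ m) (hm : 0 < m) :
    Mem 3 m u ∧ (∀ v, u v ≠ 0 → ¬ Mem 3 m (u - Finsupp.single v 1)) ∧ ∑ v, u v < m * (3 + 1) := by
  have hsum : ∑ v, u v = m + m := by
    have : (Finset.univ : Finset (Fin 8)) = setA ∪ setB := by decide
    rw [this, Finset.sum_union (by decide), hA, hB]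
  refine ⟨?_, ?_, by omega⟩
  · intro D hD
    rcases Nat.lt_or_ge D.card 4 with h | h
    · have h1 := Finset.sum_le_card_nsmul D (fun v => 3 * u v) m (fun v _ => hle v)
      rw [← Finset.mul_sum, smul_eq_mul] at h1
      have h2 : D.card * m ≤ 3 * m := Nat.mul_le_mul_right _ (by omega)
      omega
    · rcases faceless hD h with rfl | rfl
      · omega
      · omega
  · intro v hv hM
    by_cases hvA : v ∈ setA
    · have h1 := hM setB faceless_setB
      have hvB : v ∉ setB := by
        clear hv hM h1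
        revert hvA; revert v; decide
      rw [sum_sub_single _ _ _ hv, sum_sub_single _ _ _ hv, if_pos (Finset.mem_univ v),
        if_neg hvB] at h1
      omega
    · have h1 := hM setA faceless_setA
      rw [sum_sub_single _ _ _ hv, sum_sub_single _ _ _ hv, if_pos (Finset.mem_univ v),
        if_neg hvA] at h1
      omega

/-- Many minimal generators for `i = 3`. -/
noncomputable def vecThree (s : ℕ) (c : Fin 6 → Fin s) : Fin 8 →₀ ℕ :=
  Finsupp.equivFunOnFinite.symm ![2 * s + 1 + c 0, 2 * s + 1 + c 1, 2 * s + 1 + c 2,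
    9 * s - (6 * s + 3 + c 0 + c 1 + c 2), 2 * s + 1 + c 3, 2 * s + 1 + c 4, 2 * s + 1 + c 5,
    9 * s - (6 * s + 3 + c 3 + c 4 + c 5)]

lemma vecThree_injective (s : ℕ) : Function.Injective (vecThree s) := by
  intro c d h
  have h' := fun i => DFunLike.congr_fun h i
  unfold vecThree at h'
  simp only [Finsupp.equivFunOnFinite_symm_apply_apply] at h'
  funext i
  apply Fin.ext
  fin_cases i
  · simpa using h' 0
  · simpa using h' 1
  · simpa using h' 2
  · simpa using h' 4
  · simpa using h' 5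
  · simpa using h' 6

theorem lower_three (K : Type*) [Field K] (s : ℕ) :
    s ^ 6 ≤ coeffSeq K theComplex (9 * s) 3 := by
  classical
  have hcard : (Finset.univ.image (vecThree s)).card = s ^ 6 := by
    rw [Finset.card_image_of_injective _ (vecThree_injective s)]
    simp
  rw [← hcard]
  have hkey : ∀ b ∈ Finset.univ.image (vecThree s), Mem 3 (9 * s) b ∧
      (∀ v, b v ≠ 0 → ¬ Mem 3 (9 * s) (b - Finsupp.single v 1)) ∧
      ∑ v, b v < 9 * s * (3 + 1) := by
    intro b hb
    obtain ⟨c, -, rfl⟩ := Finset.mem_image.mp hb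
    have hc := fun i => (c i).isLt
    have c0 := hc 0
    have c1 := hc 1
    have c2 := hc 2
    have c3 := hc 3
    have c4 := hc 4
    have c5 := hc 5
    refine key_three ?_ ?_ ?_ (by omega)
    · have : setA = {0, 1, 2, 3} := rfl
      rw [this, Finset.sum_insert (by decide), Finset.sum_insert (by decide),
        Finset.sum_insert (by decide), Finset.sum_singleton]
      change (2 * s + 1 + c 0 : ℕ) + ((2 * s + 1 + c 1) + ((2 * s + 1 + c 2) +
        (9 * s - (6 * s + 3 + c 0 + c 1 + c 2)))) = _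
      omega
    · have : setB = {4, 5, 6, 7} := rfl
      rw [this, Finset.sum_insert (by decide), Finset.sum_insert (by decide),
        Finset.sum_insert (by decide), Finset.sum_singleton]
      change (2 * s + 1 + c 3 : ℕ) + ((2 * s + 1 + c 4) + ((2 * s + 1 + c 5) +
        (9 * s - (6 * s + 3 + c 3 + c 4 + c 5)))) = _
      omega
    · intro v
      fin_cases v
      · change 3 * (2 * s + 1 + c 0 : ℕ) ≤ _; omega
      · change 3 * (2 * s + 1 + c 1 : ℕ) ≤ _; omega
      · change 3 * (2 * s + 1 + c 2 : ℕ) ≤ _; omega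
      · change 3 * (9 * s - (6 * s + 3 + c 0 + c 1 + c 2) : ℕ) ≤ _; omega
      · change 3 * (2 * s + 1 + c 3 : ℕ) ≤ _; omega
      · change 3 * (2 * s + 1 + c 4 : ℕ) ≤ _; omega
      · change 3 * (2 * s + 1 + c 5 : ℕ) ≤ _; omega
      · change 3 * (9 * s - (6 * s + 3 + c 3 + c 4 + c 5) : ℕ) ≤ _; omega
  exact lower K 3 (9 * s) _ (fun b hb => (hkey b hb).1) (fun b hb => (hkey b hb).2.1)
    (fun b hb => (hkey b hb).2.2)

/-! ### The result -/

lemma bound {t : ℕ} (ht : 10 ^ 9 ≤ t) : 8 ^ 5 * (63 * t + 1) ^ 5 < (7 * t) ^ 6 := by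
  have h1 : (63 * t + 1) ^ 5 ≤ (64 * t) ^ 5 := Nat.pow_le_pow_left (by omega) 5
  have h2 : 0 < t ^ 5 := by positivity
  calc 8 ^ 5 * (63 * t + 1) ^ 5 ≤ 8 ^ 5 * (64 * t) ^ 5 := Nat.mul_le_mul_left _ h1
    _ = 2 ^ 45 * t ^ 5 := by ring
    _ < (7 ^ 6 * t) * t ^ 5 := by
        apply Nat.mul_lt_mul_of_pos_right _ h2
        omega
    _ = (7 * t) ^ 6 := by ring

/-- There is a simplicial complex (with eight vertices, of dimension five) whose symbolic defect
polynomials are not asymptotically quasi-unimodal, over any field. -/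
theorem result : ∃ (n : ℕ) (Δ : Complex n), Δ.dim = 5 ∧ ∀ (K : Type*) [Field K],
    ¬ AsymptoticallyQuasiUnimodal K Δ := by
  refine ⟨8, theComplex, dim_theComplex, ?_⟩
  intro K _ h
  obtain ⟨k, hk, N, hN⟩ := h
  set t := k * (N + 10 ^ 9) with ht
  have ht9 : 10 ^ 9 ≤ t := by
    rw [ht]
    calc 10 ^ 9 ≤ N + 10 ^ 9 := Nat.le_add_left _ _
      _ = 1 * (N + 10 ^ 9) := (one_mul _).symm
      _ ≤ k * (N + 10 ^ 9) := Nat.mul_le_mul_right _ hk
  have htN : N ≤ 63 * t := by
    have : N ≤ t := by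
      rw [ht]
      calc N ≤ N + 10 ^ 9 := Nat.le_add_right _ _
        _ = 1 * (N + 10 ^ 9) := (one_mul _).symm
        _ ≤ k * (N + 10 ^ 9) := Nat.mul_le_mul_right _ hk
    omega
  have hdvd : k ∣ 63 * t := Dvd.dvd.mul_left (Dvd.intro _ rfl) _
  obtain ⟨j, hj1, hj2, hup, hdown⟩ := hN (63 * t) htN hdvd
  have h1 := lower_one K (63 * t) (7 * t) (by omega)
  have h2 := upper_two K (63 * t)
  have h3 := lower_three K (7 * t)
  have h4 := bound ht9
  rw [show 9 * (7 * t) = 63 * t by ring] at h3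
  rw [dim_theComplex] at hj2 hdown
  by_cases hj : 1 < j
  · have h5 := hup 1 le_rfl hj
    simp only [Nat.reduceAdd] at h5
    omega
  · have h5 := hdown 2 (by omega) (by omega)
    simp only [Nat.reduceAdd] at h5
    omega

end Pool.Agent.Results.MP_2a0133_al.ThinJoin
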